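import Pool.Agent.Helper37.RV.Defs
import Pool.Agent.Helper37.RU.B

/-!
# Counting the runs of one letter
-/

set_option autoImplicit false

namespace Pool.Agent.Helper37.RV

open Pool.Agent.Helper37.RU (tl tl_self tl_ne tl_append tl_rep tl_last tl_shift)

/-- the completed runs of `a` have length in `E` -/
def pr (E : Set ℕ) (a : ℕ) : ℕ → List ℕ → Prop
  | _, [] => True
  | m, l :: z => if l = a then pr E a (m + 1) z else m ∈ E ∧ pr E a 0 z

theorem pr_self (E : Set ℕ) (a m : ℕ) (z : List ℕ) : pr E a m (a :: z) ↔ pr E a (m + 1) z := by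
  simp [pr]

theorem pr_ne (E : Set ℕ) (a m l : ℕ) (z : List ℕ) (h : l ≠ a) :
    pr E a m (l :: z) ↔ m ∈ E ∧ pr E a 0 z := by
  simp [pr, h]

theorem pr_append (E : Set ℕ) (a : ℕ) (u v : List ℕ) :
    ∀ m, pr E a m (u ++ v) ↔ pr E a m u ∧ pr E a (tl a m u) v := by
  induction u with
  | nil => intro m; simp [pr, tl]
  | cons l u ih =>
    intro m
    rw [List.cons_append]
    by_cases h : l = a
    · subst h
      rw [pr_self, pr_self, tl_self, ih]
    · rw [pr_ne _ _ _ _ _ h, pr_ne _ _ _ _ _ h, tl_ne _ _ _ _ h, ih, and_assoc]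

theorem pr_rep (E : Set ℕ) (a : ℕ) (i : ℕ) (z : List ℕ) :
    ∀ m, pr E a m (List.replicate i a ++ z) ↔ pr E a (m + i) z := by
  induction i with
  | zero => intro m; simp
  | succ i ih =>
    intro m
    rw [List.replicate_succ, List.cons_append, pr_self, ih]
    have h : m + 1 + i = m + (i + 1) := by omega
    rw [h]

theorem pr_free (E : Set ℕ) (h0 : 0 ∈ E) (a : ℕ) (z : List ℕ) (hz : a ∉ z) :
    pr E a 0 z ∧ tl a 0 z = 0 := by
  induction z with
  | nil => exact ⟨trivial, rfl⟩
  | cons l z ih =>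
    have h1 : l ≠ a := fun h => hz (by simp [h])
    have h2 : a ∉ z := fun h => hz (by simp [h])
    rw [pr_ne _ _ _ _ _ h1, tl_ne _ _ _ _ h1]
    exact ⟨⟨h0, (ih h2).1⟩, (ih h2).2⟩

theorem tl_zero' (a m : ℕ) (z : List ℕ) (hz : z ≠ []) (h : ∀ y ∈ z.getLast?, y ≠ a) :
    tl a m z = 0 := by
  rcases List.eq_nil_or_concat z with h1 | ⟨y, l, h1⟩
  · exact absurd h1 hz
  · rw [List.concat_eq_append] at h1
    subst h1
    refine tl_last a m l y (h l ?_)
    simp

theorem pr_head (E : Set ℕ) (a m : ℕ) (v : List ℕ) (hx : ∀ x ∈ v.head?, x ≠ a)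
    (h : pr E a m v) (ht : tl a m v ∈ E) : m ∈ E := by
  cases v with
  | nil => exact ht
  | cons x v =>
    have h1 : x ≠ a := hx x (by simp)
    rw [pr_ne _ _ _ _ _ h1] at h
    exact h.1

/-- maximal runs and counters -/
theorem run_iff (E : Set ℕ) (h0 : 0 ∈ E) (a : ℕ) (w : List ℕ) :
    (∀ j, MaxRun w a j → j ∈ E) ↔ (pr E a 0 w ∧ tl a 0 w ∈ E) := by
  constructor
  · intro h
    -- general statement for a word `z` read after `u a^m`
    have key : ∀ (z : List ℕ) (m : ℕ) (u : List ℕ), w = u ++ (List.replicate m a ++ z) →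
        (∀ y ∈ u.getLast?, y ≠ a) → pr E a m z ∧ tl a m z ∈ E := by
      intro z
      induction z with
      | nil =>
        intro m u hw hu
        refine ⟨trivial, ?_⟩
        rcases Nat.eq_zero_or_pos m with hm | hm
        · rw [hm]
          exact h0
        · exact h m ⟨hm, u, [], hw, hu, by simp⟩
      | cons l z ih =>
        intro m u hw hu
        by_cases hl : l = a
        · subst hl
          rw [pr_self, tl_self]
          refine ih (m + 1) u ?_ hu
          rw [hw, List.replicate_succ', List.append_assoc]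
          rfl
        · rw [pr_ne _ _ _ _ _ hl, tl_ne _ _ _ _ hl]
          have hm : m ∈ E := by
            rcases Nat.eq_zero_or_pos m with hm | hm
            · rw [hm]
              exact h0
            · exact h m ⟨hm, u, l :: z, hw, hu, by simpa using hl⟩
          have h1 := ih 0 (u ++ (List.replicate m a ++ [l])) (by rw [hw]; simp) (by
            intro y hy
            have : (u ++ (List.replicate m a ++ [l])).getLast? = some l := by
              rw [← List.append_assoc]
              simp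
            rw [this] at hy
            simp at hy
            rw [← hy]
            exact hl)
          exact ⟨⟨hm, h1.1⟩, h1.2⟩
    exact key w 0 [] (by simp) (by simp)
  · rintro ⟨h1, h2⟩ j ⟨hj, u, v, hw, hu, hv⟩
    rw [hw, pr_append, pr_rep] at h1
    rw [hw, tl_append, tl_rep] at h2
    have h3 : tl a 0 u = 0 := by
      by_cases hu0 : u = []
      · rw [hu0]
        rfl
      · exact tl_zero' a 0 u hu0 hu
    rw [h3, Nat.zero_add] at h1 h2
    exact pr_head E a j v hv h1.2 h2

theorem maxRun_reverse (w : List ℕ) (a j : ℕ) (h : MaxRun w.reverse a j) : MaxRun w a j := by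
  obtain ⟨hj, u, v, hw, hu, hv⟩ := h
  refine ⟨hj, v.reverse, u.reverse, ?_, ?_, ?_⟩
  · rw [← List.reverse_reverse w, hw]
    simp
  · rw [List.getLast?_reverse]
    exact hv
  · rw [List.head?_reverse]
    exact hu

theorem maxRun_reverse_iff (w : List ℕ) (a j : ℕ) : MaxRun w.reverse a j ↔ MaxRun w a j :=
  ⟨maxRun_reverse w a j, fun h => maxRun_reverse w.reverse a j (by rwa [List.reverse_reverse])⟩

/-! ### the monoid of one letter -/

/-- all completed runs of `a` have length in `E`, the last run has length divisible by `k` -/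
def Mo (E : Set ℕ) (k a : ℕ) (w : List ℕ) : Prop := pr E a 0 w ∧ k ∣ tl a 0 w

theorem dvd_mem (E : Set ℕ) (h0 : 0 ∈ E) (k : ℕ) (hk : ∀ j, 0 < k → k ≤ j → j ∈ E) (m : ℕ)
    (h : k ∣ m) : m ∈ E := by
  rcases Nat.eq_zero_or_pos m with hm | hm
  · rw [hm]
    exact h0
  · have h1 := Nat.le_of_dvd hm h
    rcases Nat.eq_zero_or_pos k with hk0 | hk0
    · rw [hk0] at h
      exact absurd (Nat.eq_zero_of_zero_dvd h) (by omega)
    · exact hk m hk0 h1

theorem pr_shift (E : Set ℕ) (k a : ℕ) (hk : ∀ j, 0 < k → k ≤ j → j ∈ E) (z : List ℕ) :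
    ∀ m m', k ∣ m → pr E a m' z → pr E a (m + m') z := by
  induction z with
  | nil => intro m m' _ _; trivial
  | cons l z ih =>
    intro m m' h hp
    by_cases hl : l = a
    · subst hl
      rw [pr_self] at hp ⊢
      rw [Nat.add_assoc]
      exact ih m (m' + 1) h hp
    · rw [pr_ne _ _ _ _ _ hl] at hp ⊢
      refine ⟨?_, hp.2⟩
      rcases Nat.eq_zero_or_pos m with h0 | h0
      · rw [h0, Nat.zero_add]
        exact hp.1
      · have h1 := Nat.le_of_dvd h0 h
        rcases Nat.eq_zero_or_pos k with hk0 | hk0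
        · rw [hk0] at h
          exact absurd (Nat.eq_zero_of_zero_dvd h) (by omega)
        · exact hk _ hk0 (by omega)

theorem mo_nil (E : Set ℕ) (k a : ℕ) : Mo E k a [] := ⟨trivial, dvd_zero k⟩

theorem mo_mul (E : Set ℕ) (k a : ℕ) (hk : ∀ j, 0 < k → k ≤ j → j ∈ E) (u v : List ℕ)
    (hu : Mo E k a u) (hv : Mo E k a v) : Mo E k a (u ++ v) := by
  refine ⟨?_, ?_⟩
  · rw [pr_append]
    exact ⟨hu.1, pr_shift E k a hk v _ 0 hu.2 hv.1⟩
  · rw [tl_append]
    exact (tl_shift k a v (tl a 0 u) 0 hu.2).2 hv.2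

theorem mo_st (E : Set ℕ) (k a : ℕ) (u w v : List ℕ) (hu : Mo E k a u)
    (h1 : Mo E k a (u ++ w)) (h2 : Mo E k a (w ++ v)) : Mo E k a w := by
  refine ⟨((pr_append E a w v 0).1 h2.1).1, ?_⟩
  have h3 := h1.2
  rw [tl_append] at h3
  exact (tl_shift k a w (tl a 0 u) 0 hu.2).1 h3

theorem mo_cut (E : Set ℕ) (k a : ℕ) (u v : List ℕ) (h : Mo E k a (u ++ v))
    (h0 : tl a 0 u = 0) : Mo E k a u ∧ Mo E k a v := by
  have h1 := (pr_append E a u v 0).1 h.1
  have h2 := h.2
  rw [tl_append, h0] at h2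
  rw [h0] at h1
  exact ⟨⟨h1.1, by rw [h0]; exact dvd_zero k⟩, h1.2, h2⟩

end Pool.Agent.Helper37.RV
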