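import Pool.Agent.Helper37.RU.C
import Pool.Agent.Helper37.RV.B

/-!
# The submonoid for two restricted letters
-/

set_option autoImplicit false

namespace Pool.Agent.Helper37.RV

open Pool.Agent.Helper31.BD
open Pool.Agent.Helper37.RU (tl tl_self tl_ne tl_append tl_rep tl_last tl_shift Irr over_flatten
  irr_gen irr_ud finite_words exists_rep)

/-- both conditions: runs of `p` are read from the left, runs of `q` from the right -/
def MM (n : ℕ) (Ep Eq : Set ℕ) (p q kp kq : ℕ) : Set (List ℕ) :=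
  {w | (∀ a ∈ w, a < n) ∧ Mo Ep kp p w ∧ Mo Eq kq q w.reverse}

variable {n : ℕ} {Ep Eq : Set ℕ} {p q kp kq : ℕ}

theorem mm_rev (w : List ℕ) : w ∈ MM n Ep Eq p q kp kq ↔ w.reverse ∈ MM n Eq Ep q p kq kp := by
  unfold MM
  simp only [Set.mem_setOf_eq, List.mem_reverse, List.reverse_reverse]
  tauto

theorem mm_nil : [] ∈ MM n Ep Eq p q kp kq :=
  ⟨by simp, mo_nil _ _ _, by simpa using mo_nil _ _ _⟩

theorem mm_mul (hp : ∀ j, 0 < kp → kp ≤ j → j ∈ Ep) (hq : ∀ j, 0 < kq → kq ≤ j → j ∈ Eq) :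
    ∀ u ∈ MM n Ep Eq p q kp kq, ∀ v ∈ MM n Ep Eq p q kp kq, u ++ v ∈ MM n Ep Eq p q kp kq := by
  rintro u ⟨u1, u2, u3⟩ v ⟨v1, v2, v3⟩
  refine ⟨?_, mo_mul _ _ _ hp u v u2 v2, ?_⟩
  · intro a ha
    rcases List.mem_append.1 ha with h | h
    · exact u1 a h
    · exact v1 a h
  · rw [List.reverse_append]
    exact mo_mul _ _ _ hq _ _ v3 u3

theorem mm_st : ∀ u w v : List ℕ, u ∈ MM n Ep Eq p q kp kq → v ∈ MM n Ep Eq p q kp kq →
    u ++ w ∈ MM n Ep Eq p q kp kq → w ++ v ∈ MM n Ep Eq p q kp kq →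
    w ∈ MM n Ep Eq p q kp kq := by
  rintro u w v ⟨u1, u2, u3⟩ ⟨v1, v2, v3⟩ ⟨a1, a2, a3⟩ ⟨b1, b2, b3⟩
  refine ⟨fun a ha => b1 a (by simp [ha]), mo_st _ _ _ u w v u2 a2 b2, ?_⟩
  rw [List.reverse_append] at a3 b3
  exact mo_st _ _ _ v.reverse w.reverse u.reverse v3 b3 a3

theorem irr_rev (w : List ℕ) (h : w ∈ Irr (MM n Ep Eq p q kp kq)) :
    w.reverse ∈ Irr (MM n Eq Ep q p kq kp) := by
  obtain ⟨h1, h2, h3⟩ := h
  refine ⟨(mm_rev w).1 h1, by simpa using h2, ?_⟩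
  intro u v he hu hv
  have he' : w = v.reverse ++ u.reverse := by
    rw [← List.reverse_append, ← he, List.reverse_reverse]
  rcases h3 _ _ he' ((mm_rev v).1 hv) ((mm_rev u).1 hu) with h | h
  · right
    simpa using h
  · left
    simpa using h

theorem pr_other (E : Set ℕ) (h0 : 0 ∈ E) (a b m i : ℕ) (hab : b ≠ a) (hi : 0 < i) :
    (pr E a m (List.replicate i b) ↔ m ∈ E) ∧ tl a m (List.replicate i b) = 0 := by
  obtain ⟨i, rfl⟩ : ∃ i', i = i' + 1 := ⟨i - 1, by omega⟩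
  have hf := pr_free E h0 a (List.replicate i b) (by
    intro h
    exact hab (List.eq_of_mem_replicate h).symm)
  rw [List.replicate_succ, pr_ne _ _ _ _ _ hab, tl_ne _ _ _ _ hab]
  exact ⟨⟨fun h => h.1, fun h => ⟨h, hf.1⟩⟩, hf.2⟩

theorem pr_unshift (E : Set ℕ) (k a : ℕ) (hk0 : 0 < k) (hk : ∀ j, 0 < k → k ≤ j → j ∈ E)
    (z : List ℕ) : ∀ m, k ≤ m → pr E a (k + m) z → pr E a m z := by
  induction z with
  | nil => intro m _ _; trivial
  | cons l z ih =>
    intro m h hp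
    by_cases hl : l = a
    · subst hl
      rw [pr_self] at hp ⊢
      rw [Nat.add_assoc] at hp
      exact ih (m + 1) (by omega) hp
    · rw [pr_ne _ _ _ _ _ hl] at hp ⊢
      exact ⟨hk m hk0 h, hp.2⟩

theorem pr_bound (E : Set ℕ) (a B : ℕ) (hB : ∀ j ∈ E, j < B) (h0 : 0 < B) (z : List ℕ) :
    ∀ m, pr E a m z → tl a m z = 0 → m < B := by
  induction z with
  | nil =>
    intro m _ h
    have : m = 0 := h
    omega
  | cons l z ih =>
    intro m hp ht
    by_cases hl : l = a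
    · subst hl
      rw [pr_self] at hp
      rw [tl_self] at ht
      have := ih (m + 1) hp ht
      omega
    · rw [pr_ne _ _ _ _ _ hl] at hp
      exact hB m hp.1

/-- how the bound `B` for the runs is obtained -/
def Bd (E : Set ℕ) (k B : ℕ) : Prop := (0 < k ∧ 2 * k ≤ B) ∨ (k = 0 ∧ 0 < B ∧ ∀ j ∈ E, j < B)

theorem claimA (hpq : p ≠ q) (h0q : 0 ∈ Eq) (hp : ∀ j, 0 < kp → kp ≤ j → j ∈ Ep) (B : ℕ)
    (hB : Bd Ep kp B)
    (w : List ℕ) (hw : w ∈ Irr (MM n Ep Eq p q kp kq)) (i : ℕ) (v : List ℕ)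
    (he : w = List.replicate i p ++ v) : i < B := by
  rcases hB with ⟨hk, hB⟩ | ⟨hk, hB0, hB⟩
  swap
  · obtain ⟨⟨w1, w2, w3⟩, _, h3⟩ := hw
    have h4 := w2.1
    have h5 := w2.2
    rw [he, pr_rep, Nat.zero_add] at h4
    rw [he, tl_rep, Nat.zero_add, hk] at h5
    exact pr_bound Ep p B hB hB0 v i h4 (Nat.eq_zero_of_zero_dvd h5)
  by_contra hi
  push Not at hi
  obtain ⟨i', rfl⟩ : ∃ i', i = kp + i' := ⟨i - kp, by omega⟩
  have hi' : kp ≤ i' := by omega
  obtain ⟨⟨w1, w2, w3⟩, _, h3⟩ := hw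
  have hpn : p < n := by
    refine w1 p ?_
    rw [he]
    refine List.mem_append_left _ (List.mem_replicate.2 ⟨by omega, rfl⟩)
  have hsplit : w = List.replicate kp p ++ (List.replicate i' p ++ v) := by
    rw [he, List.replicate_add, List.append_assoc]
  have hu : List.replicate kp p ∈ MM n Ep Eq p q kp kq := by
    refine ⟨?_, ?_, ?_⟩
    · intro a ha
      rw [List.eq_of_mem_replicate ha]
      exact hpn
    · have h4 := pr_rep Ep p kp [] 0
      have h5 := tl_rep p kp [] 0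
      rw [List.append_nil, Nat.zero_add] at h4 h5
      exact ⟨h4.2 trivial, by rw [h5]; exact dvd_refl kp⟩
    · rw [List.reverse_replicate]
      have h4 := pr_other Eq h0q q p 0 kp hpq hk
      exact ⟨h4.1.2 h0q, by rw [h4.2]; exact dvd_zero kq⟩
  have hv : List.replicate i' p ++ v ∈ MM n Ep Eq p q kp kq := by
    refine ⟨?_, ⟨?_, ?_⟩, ?_⟩
    · intro a ha
      refine w1 a ?_
      rw [hsplit]
      exact List.mem_append_right _ ha
    · have h4 := w2.1
      rw [he, pr_rep] at h4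
      rw [pr_rep, Nat.zero_add]
      rw [Nat.zero_add] at h4
      exact pr_unshift Ep kp p hk hp v i' hi' h4
    · have h4 := w2.2
      rw [he, tl_rep, Nat.zero_add] at h4
      rw [tl_rep, Nat.zero_add]
      exact (tl_shift kp p v kp i' (dvd_refl kp)).1 h4
    · have h4 := w3
      rw [he, List.reverse_append, List.reverse_replicate] at h4
      rw [List.reverse_append, List.reverse_replicate]
      have h5 := pr_other Eq h0q q p (tl q 0 v.reverse) (kp + i') hpq (by omega)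
      have h6 := pr_other Eq h0q q p (tl q 0 v.reverse) i' hpq (by omega)
      refine ⟨?_, ?_⟩
      · rw [pr_append]
        have h7 := (pr_append Eq q v.reverse (List.replicate (kp + i') p) 0).1 h4.1
        exact ⟨h7.1, h6.1.2 (h5.1.1 h7.2)⟩
      · rw [tl_append, h6.2]
        exact dvd_zero kq
  rcases h3 _ _ hsplit hu hv with h | h
  · have := congrArg List.length h
    simp at this
    omega
  · have := congrArg List.length h
    simp at this
    omega

theorem claimB (hpq : p ≠ q) (h0p : 0 ∈ Ep) (hq : ∀ j, 0 < kq → kq ≤ j → j ∈ Eq) (B : ℕ)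
    (hB : Bd Eq kq B)
    (w : List ℕ) (hw : w ∈ Irr (MM n Ep Eq p q kp kq)) (j : ℕ) (v : List ℕ)
    (he : w = v ++ List.replicate j q) : j < B := by
  refine claimA hpq.symm h0p hq B hB w.reverse (irr_rev w hw) j v.reverse ?_
  rw [he, List.reverse_append, List.reverse_replicate]

theorem claimC (w u v : List ℕ) (hw : w ∈ Irr (MM n Ep Eq p q kp kq)) (he : w = u ++ v)
    (hu : u ≠ []) (hv : v ≠ []) (h1 : tl p 0 u = 0) (h2 : tl q 0 v.reverse = 0) : False := by
  obtain ⟨⟨w1, w2, w3⟩, _, h3⟩ := hw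
  rw [he] at w2 w3
  rw [List.reverse_append] at w3
  obtain ⟨a1, a2⟩ := mo_cut _ _ _ _ _ w2 h1
  obtain ⟨b1, b2⟩ := mo_cut _ _ _ _ _ w3 h2
  rcases h3 u v he ⟨fun a ha => w1 a (by rw [he]; exact List.mem_append_left _ ha), a1, b2⟩
    ⟨fun a ha => w1 a (by rw [he]; exact List.mem_append_right _ ha), a2, b1⟩ with h | h
  · exact hu h
  · exact hv h

theorem irr_len (hpq : p ≠ q) (h0p : 0 ∈ Ep) (h0q : 0 ∈ Eq)
    (hp : ∀ j, 0 < kp → kp ≤ j → j ∈ Ep) (hq : ∀ j, 0 < kq → kq ≤ j → j ∈ Eq) (B : ℕ)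
    (hBp : Bd Ep kp B) (hBq : Bd Eq kq B)
    (w : List ℕ) (hw : w ∈ Irr (MM n Ep Eq p q kp kq)) :
    w.length ≤ 2 * B := by
  obtain ⟨i, z, h1, h2⟩ := exists_rep p w
  have hi := claimA hpq h0q hp B hBp w hw i z h1
  rcases h2 with h2 | ⟨l, y, h2, hl⟩
  · rw [h1, h2]
    simp
    omega
  · obtain ⟨j, z2, h3, h4⟩ := exists_rep q y
    rcases h4 with h4 | ⟨x, y2, h4, hx⟩
    · have hj := claimB hpq h0p hq B hBq w hw j (List.replicate i p ++ [l]) (by
        rw [h1, h2, h3, h4]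
        simp)
      rw [h1, h2, h3, h4]
      simp
      omega
    · exfalso
      refine claimC w (List.replicate i p ++ l :: List.replicate j q) (x :: y2) hw ?_ (by simp)
        (by simp) ?_ ?_
      · rw [h1, h2, h3, h4]
        simp
      · rw [tl_rep, tl_ne _ _ _ _ hl]
        exact (pr_free Set.univ (Set.mem_univ _) p _
          (fun h => hpq (List.eq_of_mem_replicate h))).2
      · rw [List.reverse_cons]
        exact tl_last _ _ _ _ hx

/-- the base is finite and a code, and it generates -/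
theorem exists_code (hpq : p ≠ q) (h0p : 0 ∈ Ep) (h0q : 0 ∈ Eq)
    (hp : ∀ j, 0 < kp → kp ≤ j → j ∈ Ep) (hq : ∀ j, 0 < kq → kq ≤ j → j ∈ Eq) (B : ℕ)
    (hBp : Bd Ep kp B) (hBq : Bd Eq kq B) :
    ∃ C : Finset (List ℕ), UD C ∧
      ∀ w, w ∈ Fac C ↔ ∃ u v, u ++ w ++ v ∈ MM n Ep Eq p q kp kq := by
  classical
  have hfin : (Irr (MM n Ep Eq p q kp kq)).Finite := by
    refine (finite_words n (2 * B)).subset ?_
    intro w hw
    exact ⟨hw.1.1, irr_len hpq h0p h0q hp hq B hBp hBq w hw⟩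
  have hC : ∀ w, w ∈ hfin.toFinset ↔ w ∈ Irr (MM n Ep Eq p q kp kq) :=
    fun w => hfin.mem_toFinset
  refine ⟨hfin.toFinset, irr_ud mm_nil (mm_mul hp hq) mm_st hC, ?_⟩
  intro w
  constructor
  · rintro ⟨u, v, l, hl, he⟩
    refine ⟨u, v, ?_⟩
    rw [he]
    exact over_flatten mm_nil (mm_mul hp hq) hC l hl
  · rintro ⟨u, v, h⟩
    obtain ⟨l, hl, he⟩ := irr_gen hC _ _ le_rfl h
    exact ⟨u, v, l, hl, he⟩

end Pool.Agent.Helper37.RV
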