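import Pool.Agent.Helper37.RV.C

/-!
# At most two restricted letters
-/

set_option autoImplicit false

namespace Pool.Agent.Helper37.RV

open Pool.Agent.Helper31.BD
open Pool.Agent.Helper37.RU (tl tl_self tl_ne tl_append tl_rep tl_last tl_shift)

/-- a run of `a` in front of a word which starts with `b` -/
def al (a b s : ℕ) (c : List ℕ) : List ℕ := if c.head? = some b then List.replicate s a else []

theorem side_rev (a b s t : ℕ) (c : List ℕ) :
    (al a b s c ++ (c ++ al b a t c.reverse)).reverse =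
      al b a t c.reverse ++ (c.reverse ++ al a b s c.reverse.reverse) := by
  have h1 : (al b a t c.reverse).reverse = al b a t c.reverse := by
    unfold al
    split_ifs <;> simp
  have h2 : (al a b s c).reverse = al a b s c := by
    unfold al
    split_ifs <;> simp
  rw [List.reverse_append, List.reverse_append, h1, h2, List.reverse_reverse, List.append_assoc]

theorem side (E : Set ℕ) (h0 : 0 ∈ E) (a b s t : ℕ) (hab : a ≠ b) (hs : s ∈ E) (ht : 0 < t)
    (c : List ℕ) (h1 : pr E a 0 c) (h2 : tl a 0 c ∈ E) :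
    pr E a 0 (al a b s c ++ (c ++ al b a t c.reverse)) ∧
      tl a 0 (al a b s c ++ (c ++ al b a t c.reverse)) = 0 := by
  -- the right end
  have hR : pr E a (tl a 0 c) (al b a t c.reverse) ∧ tl a (tl a 0 c) (al b a t c.reverse) = 0 := by
    unfold al
    split_ifs with h
    · have h3 := pr_other E h0 a b (tl a 0 c) t (Ne.symm hab) ht
      exact ⟨h3.1.2 h2, h3.2⟩
    · refine ⟨trivial, ?_⟩
      simp only [tl]
      by_cases hc : c = []
      · rw [hc]
        rfl
      · refine tl_zero' a 0 c hc ?_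
        intro y hy hya
        rw [List.head?_reverse] at h
        exact h (by rw [← hya]; exact hy)
  -- the left end
  have hL : pr E a (tl a 0 (al a b s c)) c ∧ tl a (tl a 0 (al a b s c)) c = tl a 0 c := by
    unfold al
    split_ifs with h
    · cases c with
      | nil => simp at h
      | cons x c =>
        simp only [List.head?_cons, Option.some.injEq] at h
        have hxa : x ≠ a := by rw [h]; exact Ne.symm hab
        rw [pr_ne _ _ _ _ _ hxa] at h1
        rw [pr_ne _ _ _ _ _ hxa, tl_ne _ _ _ _ hxa, tl_ne _ _ _ _ hxa]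
        have h4 := tl_rep a s [] 0
        rw [List.append_nil, Nat.zero_add] at h4
        rw [h4]
        exact ⟨⟨hs, h1.2⟩, rfl⟩
    · exact ⟨h1, rfl⟩
  have hL0 : pr E a 0 (al a b s c) := by
    unfold al
    split_ifs with h
    · have h4 := pr_rep E a s [] 0
      rw [List.append_nil] at h4
      exact h4.2 trivial
    · trivial
  rw [pr_append, tl_append, pr_append, tl_append, hL.2]
  exact ⟨⟨hL0, hL.1, hR.1⟩, hR.2⟩

theorem fac_eq (n : ℕ) (S : ℕ → Set ℕ) (p q kp kq sp sq : ℕ) (hpq : p ≠ q) (hpn : p < n)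
    (hqn : q < n)
    (hp : ∀ j, 0 < kp → kp ≤ j → j ∈ insert 0 (S p))
    (hq : ∀ j, 0 < kq → kq ≤ j → j ∈ insert 0 (S q))
    (hsp : sp ∈ S p) (hsp0 : 0 < sp) (hsq : sq ∈ S q) (hsq0 : 0 < sq)
    (hres : ∀ a < n, a ≠ p → a ≠ q → ∀ j, 0 < j → j ∈ S a) (w : List ℕ) :
    (∃ u v, u ++ w ++ v ∈ MM n (insert 0 (S p)) (insert 0 (S q)) p q kp kq) ↔
      w ∈ RunLang n S := by
  constructor
  · rintro ⟨u, v, h1, h2, h3⟩
    refine ⟨u, v, h1, ?_⟩
    intro a j hj
    have hj0 : 0 < j := hj.1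
    by_cases hap : a = p
    · subst hap
      have h4 := (run_iff (insert 0 (S a)) (Or.inl rfl) a (u ++ w ++ v)).2
        ⟨h2.1, dvd_mem _ (Or.inl rfl) kp hp _ h2.2⟩ j hj
      exact Set.mem_of_mem_insert_of_ne h4 (by omega)
    by_cases haq : a = q
    · subst haq
      have h4 := (run_iff (insert 0 (S a)) (Or.inl rfl) a (u ++ w ++ v).reverse).2
        ⟨h3.1, dvd_mem _ (Or.inl rfl) kq hq _ h3.2⟩ j ((maxRun_reverse_iff _ _ _).2 hj)
      exact Set.mem_of_mem_insert_of_ne h4 (by omega)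
    have han : a < n := by
      obtain ⟨_, u', v', he, _, _⟩ := hj
      refine h1 a ?_
      rw [he]
      refine List.mem_append_right _ (List.mem_append_left _ ?_)
      exact List.mem_replicate.2 ⟨by omega, rfl⟩
    exact hres a han hap haq j hj0
  · rintro ⟨u, v, h1, h2⟩
    let c := u ++ w ++ v
    have hcp := (run_iff (insert 0 (S p)) (Or.inl rfl) p c).1
      (fun j hj => Or.inr (h2 p j hj))
    have hcq := (run_iff (insert 0 (S q)) (Or.inl rfl) q c.reverse).1
      (fun j hj => Or.inr (h2 q j ((maxRun_reverse_iff _ _ _).1 hj)))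
    have e1 := side (insert 0 (S p)) (Or.inl rfl) p q sp sq hpq (Or.inr hsp) hsq0 c hcp.1 hcp.2
    have e2 := side (insert 0 (S q)) (Or.inl rfl) q p sq sp (Ne.symm hpq) (Or.inr hsq) hsp0
      c.reverse hcq.1 hcq.2
    rw [← side_rev] at e2
    refine ⟨al p q sp c ++ u, v ++ al q p sq c.reverse, ?_⟩
    have hw : al p q sp c ++ u ++ w ++ (v ++ al q p sq c.reverse) =
        al p q sp c ++ (c ++ al q p sq c.reverse) := by
      simp only [c, List.append_assoc]
    rw [hw]
    refine ⟨?_, ⟨e1.1, by rw [e1.2]; exact dvd_zero kp⟩, ⟨e2.1, by rw [e2.2]; exact dvd_zero kq⟩⟩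
    intro a ha
    rcases List.mem_append.1 ha with h | h
    · unfold al at h
      split_ifs at h with h5
      · rw [List.eq_of_mem_replicate h]
        exact hpn
      · simp at h
    · rcases List.mem_append.1 h with h | h
      · exact h1 a h
      · unfold al at h
        split_ifs at h with h5
        · rw [List.eq_of_mem_replicate h]
          exact hqn
        · simp at h

theorem exists_k (S : Set ℕ) (hS : S.Finite ∨ Sᶜ.Finite) : ∃ k B : ℕ,
    (∀ j, 0 < k → k ≤ j → j ∈ insert 0 S) ∧ ∀ B', B ≤ B' → Bd (insert 0 S) k B' := by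
  rcases hS with h | h
  · obtain ⟨B, hB⟩ := h.bddAbove
    refine ⟨0, B + 1, fun j h0 => absurd h0 (lt_irrefl 0), fun B' hB' => Or.inr ⟨rfl, by omega, ?_⟩⟩
    intro j hj
    rcases hj with hj | hj
    · rw [hj]
      omega
    · have := hB hj
      omega
  · obtain ⟨B, hB⟩ := h.bddAbove
    refine ⟨B + 1, 2 * (B + 1), fun j _ hj => Or.inr ?_, fun B' hB' => Or.inl ⟨by omega, hB'⟩⟩
    by_contra hj'
    have := hB hj'
    omega

theorem sufficient (n : ℕ) (hn : 2 ≤ n) (S : ℕ → Set ℕ)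
    (hS : ∀ a < n, (S a).Finite ∨ (S a)ᶜ.Finite) (hne : ∀ a < n, ∃ j ∈ S a, 0 < j)
    (h : {a | a < n ∧ ∃ j, 0 < j ∧ j ∉ S a}.ncard ≤ 2) :
    ∃ C : Finset (List ℕ), UD C ∧ RunLang n S = Fac C := by
  obtain ⟨p, q, hpq, hpn, hqn, hs⟩ : ∃ p q : ℕ, p ≠ q ∧ p < n ∧ q < n ∧
      {a | a < n ∧ ∃ j, 0 < j ∧ j ∉ S a} ⊆ {p, q} := by
    have hfin : {a | a < n ∧ ∃ j, 0 < j ∧ j ∉ S a}.Finite :=
      (Set.finite_lt_nat n).subset (fun a ha => ha.1)
    have hlt : ∀ a ∈ {a | a < n ∧ ∃ j, 0 < j ∧ j ∉ S a}, a < n := fun a ha => ha.1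
    generalize {a | a < n ∧ ∃ j, 0 < j ∧ j ∉ S a} = s at h hfin hlt
    have h3 : s.ncard = 0 ∨ s.ncard = 1 ∨ s.ncard = 2 := by omega
    rcases h3 with h3 | h3 | h3
    · rw [Set.ncard_eq_zero hfin] at h3
      exact ⟨0, 1, by omega, by omega, by omega, by rw [h3]; exact Set.empty_subset _⟩
    · obtain ⟨a, ha⟩ := Set.ncard_eq_one.1 h3
      have han : a < n := hlt a (by rw [ha]; exact Set.mem_singleton a)
      by_cases ha0 : a = 0
      · refine ⟨a, 1, by omega, han, by omega, ?_⟩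
        rw [ha]
        intro x hx
        exact Or.inl hx
      · refine ⟨a, 0, ha0, han, by omega, ?_⟩
        rw [ha]
        intro x hx
        exact Or.inl hx
    · obtain ⟨a, b, e, hab⟩ := Set.ncard_eq_two.1 h3
      exact ⟨a, b, e, hlt a (by rw [hab]; exact Or.inl rfl),
        hlt b (by rw [hab]; exact Or.inr rfl), by rw [hab]⟩
  obtain ⟨sp, hsp, hsp0⟩ := hne p hpn
  obtain ⟨sq, hsq, hsq0⟩ := hne q hqn
  obtain ⟨kp, Bp, hkp, hBp⟩ := exists_k (S p) (hS p hpn)
  obtain ⟨kq, Bq, hkq, hBq⟩ := exists_k (S q) (hS q hqn)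
  have hres : ∀ a < n, a ≠ p → a ≠ q → ∀ j, 0 < j → j ∈ S a := by
    intro a ha hap haq j hj
    by_contra hjn
    have h3 := hs (show a ∈ {a | a < n ∧ ∃ j, 0 < j ∧ j ∉ S a} from ⟨ha, j, hj, hjn⟩)
    rcases h3 with h3 | h3
    · exact hap h3
    · exact haq h3
  obtain ⟨C, hC, hF⟩ := exists_code (n := n) (Ep := insert 0 (S p)) (Eq := insert 0 (S q))
    (kp := kp) (kq := kq) hpq (Or.inl rfl) (Or.inl rfl) hkp hkq (Bp + Bq)
    (hBp _ (by omega)) (hBq _ (by omega))
  refine ⟨C, hC, ?_⟩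
  ext w
  rw [hF w]
  exact (fac_eq n S p q kp kq sp sq hpq hpn hqn hkp hkq hsp hsp0 hsq hsq0 hres w).symm

end Pool.Agent.Helper37.RV
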