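import Pool.Agent.Helper31.BD.Defs

/-!
# MP_93aa28_lc: languages defined by run length constraints (definitions)
-/

set_option autoImplicit false

namespace Pool.Agent.Helper37.RV

/-- `a^j` is a maximal run of the word `w` -/
def MaxRun (w : List ℕ) (a j : ℕ) : Prop :=
  0 < j ∧ ∃ u v : List ℕ, w = u ++ (List.replicate j a ++ v) ∧
    (∀ y ∈ u.getLast?, y ≠ a) ∧ (∀ x ∈ v.head?, x ≠ a)

/-- the words over the letters `0, .., n - 1` such that the length of every maximal run of every
letter `a` belongs to `S a` -/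
def Complete (n : ℕ) (S : ℕ → Set ℕ) (w : List ℕ) : Prop :=
  (∀ a ∈ w, a < n) ∧ ∀ a j : ℕ, MaxRun w a j → j ∈ S a

/-- the factors of these words -/
def RunLang (n : ℕ) (S : ℕ → Set ℕ) : Set (List ℕ) :=
  {w | ∃ u v : List ℕ, Complete n S (u ++ w ++ v)}

end Pool.Agent.Helper37.RV
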