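import Pool.Agent.Helper37.RV.D
import Pool.Agent.Helper37.RU.I

/-!
# The generating functions of a run length language
-/

set_option autoImplicit false

namespace Pool.Agent.Helper37.RV

open Pool.Agent.Helper31.BD
open Pool.Agent.Helper37.RU (tl tl_self tl_ne tl_append tl_rep tl_last tl_shift gf ind ind_congr
  ind_true ind_false ind_and gf_congr gf_step gf_const_mul gf_zero Gap ee ee_eval gap_eval)

/-- between a run of `x` with counter `m` and a run of `y` of length `R` -/
def W (E : ℕ → Set ℕ) (y R x m : ℕ) (z : List ℕ) : Prop :=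
  ∀ a, pr (E a) a (if a = x then m else 0) z ∧
    tl a (if a = x then m else 0) z + (if a = y then R else 0) ∈ E a

variable {E : ℕ → Set ℕ}

theorem W_nil (h0 : ∀ a, 0 ∈ E a) (y R x m : ℕ) (hR : R ∈ E y) :
    W E y R x m [] ↔ m + (if x = y then R else 0) ∈ E x := by
  constructor
  · intro h
    have h1 := (h x).2
    rw [if_pos rfl] at h1
    exact h1
  · intro h a
    refine ⟨trivial, ?_⟩
    by_cases hax : a = x
    · subst hax
      rw [if_pos rfl]
      exact h
    · rw [if_neg hax]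
      simp only [tl, Nat.zero_add]
      by_cases hay : a = y
      · rw [if_pos hay, hay]
        exact hR
      · rw [if_neg hay]
        exact h0 a

theorem W_self (h0 : ∀ a, 0 ∈ E a) (y R x m : ℕ) (z : List ℕ) :
    W E y R x m (x :: z) ↔ W E y R x (m + 1) z := by
  unfold W
  refine forall_congr' fun a => ?_
  by_cases hax : a = x
  · subst hax
    rw [if_pos rfl, if_pos rfl, pr_self, tl_self]
  · rw [if_neg hax, if_neg hax, pr_ne _ _ _ _ _ (Ne.symm hax), tl_ne _ _ _ _ (Ne.symm hax)]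
    simp [h0 a]

theorem W_ne (h0 : ∀ a, 0 ∈ E a) (y R x m l : ℕ) (z : List ℕ) (hl : l ≠ x) :
    W E y R x m (l :: z) ↔ m ∈ E x ∧ W E y R l 1 z := by
  unfold W
  constructor
  · intro h
    refine ⟨?_, fun a => ?_⟩
    · have h1 := (h x).1
      rw [if_pos rfl, pr_ne _ _ _ _ _ hl] at h1
      exact h1.1
    · have h1 := h a
      by_cases hal : a = l
      · subst hal
        rw [if_neg hl, pr_self, tl_self] at h1
        rw [if_pos rfl]
        exact h1
      · rw [if_neg hal]
        rw [pr_ne _ _ _ _ _ (Ne.symm hal), tl_ne _ _ _ _ (Ne.symm hal)] at h1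
        exact ⟨h1.1.2, h1.2⟩
  · rintro ⟨hm, h⟩ a
    have h1 := h a
    by_cases hal : a = l
    · subst hal
      rw [if_neg hl, pr_self, tl_self]
      rw [if_pos rfl] at h1
      exact h1
    · rw [if_neg hal] at h1
      rw [pr_ne _ _ _ _ _ (Ne.symm hal), tl_ne _ _ _ _ (Ne.symm hal)]
      refine ⟨⟨?_, h1.1⟩, h1.2⟩
      by_cases hax : a = x
      · subst hax
        rw [if_pos rfl]
        exact hm
      · rw [if_neg hax]
        exact h0 a

/-- a run which is long enough to forget its length -/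
def Anc (E : Set ℕ) (R : ℕ) : Prop := (∀ j, R ≤ j → j ∈ E) ∨ (R ∈ E ∧ ∀ j ∈ E, j ≤ R)

theorem anc_self (E : Set ℕ) (R : ℕ) (h : Anc E R) : R ∈ E := by
  rcases h with h | h
  · exact h R le_rfl
  · exact h.1

theorem anc_mem (E : Set ℕ) (R t : ℕ) (h : Anc E R) (ht : R ≤ t) (hex : ∃ j, t ≤ j ∧ j ∈ E) :
    t ∈ E := by
  rcases h with h | h
  · exact h t ht
  · obtain ⟨j, hj, hjE⟩ := hex
    have := h.2 j hjE
    have h1 : t = R := by omega
    rw [h1]
    exact h.1

theorem run_ge (E : Set ℕ) (a r : ℕ) (z : List ℕ) : ∀ m, pr E a m z → tl a m z + r ∈ E →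
    ∃ j, m ≤ j ∧ j ∈ E := by
  induction z with
  | nil =>
    intro m _ h
    exact ⟨m + r, Nat.le_add_right m r, h⟩
  | cons l z ih =>
    intro m h1 h2
    by_cases hl : l = a
    · subst hl
      rw [pr_self] at h1
      rw [tl_self] at h2
      obtain ⟨j, hj, hjE⟩ := ih (m + 1) h1 h2
      exact ⟨j, by omega, hjE⟩
    · rw [pr_ne _ _ _ _ _ hl] at h1
      exact ⟨m, le_rfl, h1.1⟩

theorem big (E : Set ℕ) (a R r : ℕ) (hA : Anc E R) (z : List ℕ) (m m' : ℕ) (hm : R ≤ m)
    (hm' : R ≤ m') (hex : ∃ j, m' ≤ j ∧ j ∈ E) (h : pr E a m z ∧ tl a m z + r ∈ E) :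
    pr E a m' z ∧ tl a m' z + r ∈ E := by
  rcases hA with hA | hA
  · clear hex
    induction z generalizing m m' with
    | nil => exact ⟨trivial, hA _ (by simp only [tl]; omega)⟩
    | cons l z ih =>
      by_cases hl : l = a
      · subst hl
        rw [pr_self, tl_self] at h ⊢
        exact ih (m + 1) (m' + 1) (by omega) (by omega) h
      · rw [pr_ne _ _ _ _ _ hl, tl_ne _ _ _ _ hl] at h ⊢
        exact ⟨⟨hA m' hm', h.1.2⟩, h.2⟩
  · obtain ⟨j, hj, hjE⟩ := run_ge E a r z m h.1 h.2
    obtain ⟨j', hj', hjE'⟩ := hex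
    have h1 := hA.2 j hjE
    have h2 := hA.2 j' hjE'
    have h3 : m = m' := by omega
    rw [← h3]
    exact h

theorem W_big (y R' x R m m' : ℕ) (z : List ℕ) (hA : Anc (E x) R) (hm : R ≤ m)
    (hm' : R ≤ m') (hex : ∃ j, m' ≤ j ∧ j ∈ E x) (h : W E y R' x m z) : W E y R' x m' z := by
  intro a
  have h1 := h a
  by_cases hax : a = x
  · subst hax
    rw [if_pos rfl] at h1 ⊢
    exact big _ _ R _ hA z m m' hm hm' hex h1
  · rw [if_neg hax] at h1 ⊢
    exact h1

theorem W_ge (y R' x m : ℕ) (z : List ℕ) (h : W E y R' x m z) : ∃ j, m ≤ j ∧ j ∈ E x := by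
  have h1 := h x
  rw [if_pos rfl] at h1
  exact run_ge _ _ _ z m h1.1 h1.2

/-- the recurrence for the counter -/
theorem base_rec (h0 : ∀ a, 0 ∈ E a) (S : Finset ℕ) (wt : ℕ → ℂ) (y R' x : ℕ) (hx : x ∈ S)
    (hR' : R' ∈ E y) (m : ℕ) :
    gf S wt (fun z => ind (W E y R' x m z)) =
      PowerSeries.C (ind (m + (if x = y then R' else 0) ∈ E x)) +
      PowerSeries.C (wt x) * PowerSeries.X * gf S wt (fun z => ind (W E y R' x (m + 1) z)) +
      PowerSeries.C (ind (m ∈ E x)) * (PowerSeries.X * ∑ l ∈ S.erase x,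
        PowerSeries.C (wt l) * gf S wt (fun z => ind (W E y R' l 1 z))) := by
  classical
  have h1 : gf S wt (fun z => ind (W E y R' x m z)) =
      PowerSeries.C (ind (W E y R' x m [])) + PowerSeries.X *
      ∑ l ∈ S, PowerSeries.C (wt l) * gf S wt (fun z => ind (W E y R' x m (l :: z))) :=
    gf_step S wt _
  rw [h1, ind_congr (W_nil h0 y R' x m hR'), ← Finset.add_sum_erase S _ hx]
  have h2 : gf S wt (fun z => ind (W E y R' x m (x :: z))) =
      gf S wt (fun z => ind (W E y R' x (m + 1) z)) := by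
    refine gf_congr S wt _ _ fun z _ => ind_congr (W_self h0 y R' x m z)
  have h3 : ∑ l ∈ S.erase x, PowerSeries.C (wt l) *
      gf S wt (fun z => ind (W E y R' x m (l :: z))) = PowerSeries.C (ind (m ∈ E x)) *
        ∑ l ∈ S.erase x, PowerSeries.C (wt l) * gf S wt (fun z => ind (W E y R' l 1 z)) := by
    rw [Finset.mul_sum]
    refine Finset.sum_congr rfl fun l hl => ?_
    have h4 : gf S wt (fun z => ind (W E y R' x m (l :: z))) =
        gf S wt (fun z => ind (m ∈ E x) * ind (W E y R' l 1 z)) := by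
      refine gf_congr S wt _ _ fun z _ => ?_
      rw [ind_congr (W_ne h0 y R' x m l z (Finset.ne_of_mem_erase hl)), ind_and]
    rw [h4, gf_const_mul]
    ring
  rw [h2, h3]
  ring

theorem coe_gap (F : Finset ℕ) (c : ℂ) : (Gap F c : PowerSeries ℂ) =
    ∑ j ∈ F, (PowerSeries.C c * PowerSeries.X) ^ j := by
  unfold Gap
  rw [← Polynomial.coeToPowerSeries.ringHom_apply, map_sum]
  refine Finset.sum_congr rfl fun j _ => ?_
  simp only [Polynomial.coeToPowerSeries.ringHom_apply, Polynomial.coe_pow, Polynomial.coe_mul,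
    Polynomial.coe_C, Polynomial.coe_X]

open Classical in
/-- the excluded lengths -/
noncomputable def Df (E : Set ℕ) (R : ℕ) : Finset ℕ := (Finset.range R).filter (fun j => j ∉ E)

open Classical in
/-- the allowed lengths -/
noncomputable def Ff (E : Set ℕ) (R : ℕ) : Finset ℕ :=
  (Finset.range (R + 1)).filter (fun j => 0 < j ∧ j ∈ E)

theorem run_rec_cof (h0 : ∀ a, 0 ∈ E a) (S : Finset ℕ) (wt : ℕ → ℂ) (y R' x R : ℕ) (hx : x ∈ S)
    (hR' : R' ∈ E y) (hcof : ∀ j, R ≤ j → j ∈ E x) (hxy : x = y → R' = R) :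
    (ee (Df (E x) R) (wt x) : PowerSeries ℂ) * gf S wt (fun z => ind (W E y R' x R z)) =
      PowerSeries.X * ∑ l ∈ S, PowerSeries.C (wt l) * gf S wt (fun z => ind (W E y R' l 1 z)) +
        1 - PowerSeries.C (ind (x = y)) * (Gap (Df (E x) R) (wt x) : PowerSeries ℂ) := by
  classical
  let F : ℕ → PowerSeries ℂ := fun m => gf S wt (fun z => ind (W E y R' x m z))
  let Z : PowerSeries ℂ := PowerSeries.C (wt x) * PowerSeries.X
  let N : PowerSeries ℂ := PowerSeries.X * ∑ l ∈ S.erase x,
    PowerSeries.C (wt l) * gf S wt (fun z => ind (W E y R' l 1 z))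
  have heps : ∀ m, (m + (if x = y then R' else 0) ∈ E x) ↔ (x = y ∨ m ∈ E x) := by
    intro m
    by_cases h : x = y
    · rw [if_pos h, hxy h]
      exact ⟨fun _ => Or.inl h, fun _ => hcof _ (Nat.le_add_left R m)⟩
    · rw [if_neg h, Nat.add_zero]
      exact ⟨Or.inr, fun h' => h'.elim (fun h'' => absurd h'' h) id⟩
  have hF : ∀ m, F m = PowerSeries.C (ind (x = y ∨ m ∈ E x)) + Z * F (m + 1) +
      PowerSeries.C (ind (m ∈ E x)) * N := by
    intro m
    have h1 := base_rec h0 S wt y R' x hx hR' m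
    rw [ind_congr (heps m)] at h1
    exact h1
  have hbig : ∀ m, R ≤ m → F m = F R := by
    intro m hm
    refine gf_congr S wt _ _ fun z _ => ind_congr
      ⟨W_big y R' x R m R z (Or.inl hcof) hm le_rfl ⟨R, le_rfl, hcof R le_rfl⟩,
        W_big y R' x R R m z (Or.inl hcof) le_rfl hm ⟨m, le_rfl, hcof m hm⟩⟩
  have hA : F R = 1 + Z * F R + N := by
    have h1 := hF R
    have hKD : R ∈ E x := hcof R le_rfl
    rw [ind_true (Or.inr hKD), ind_true hKD, hbig (R + 1) (by omega), map_one, one_mul] at h1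
    exact h1
  have hdel : ∀ m, F R - F m = PowerSeries.C (ind (m ∉ E x)) *
      (1 - PowerSeries.C (ind (x = y)) + N) + Z * (F R - F (m + 1)) := by
    intro m
    have h1 := hF m
    by_cases hm : m ∈ E x
    · rw [ind_true (Or.inr hm), ind_true hm, map_one, one_mul] at h1
      rw [ind_false (fun h : m ∉ E x => h hm), map_zero, zero_mul, zero_add]
      linear_combination hA - h1
    · have e1 : ind (x = y ∨ m ∈ E x) = ind (x = y) :=
        ind_congr ⟨fun h => h.elim id (fun h => absurd h hm), Or.inl⟩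
      rw [e1, ind_false hm, map_zero, zero_mul, add_zero] at h1
      rw [ind_true hm, map_one, one_mul]
      linear_combination hA - h1
  have htel : ∀ M, F R - F 0 = (∑ m ∈ Finset.range M, PowerSeries.C (ind (m ∉ E x)) * Z ^ m) *
      (1 - PowerSeries.C (ind (x = y)) + N) + Z ^ M * (F R - F M) := by
    intro M
    induction M with
    | zero => simp
    | succ M ih =>
      rw [Finset.sum_range_succ, ih, hdel M]
      ring
  have hGap : (Gap (Df (E x) R) (wt x) : PowerSeries ℂ) =
      ∑ m ∈ Finset.range R, PowerSeries.C (ind (m ∉ E x)) * Z ^ m := by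
    rw [coe_gap]
    have h2 : ∑ m ∈ Finset.range R, PowerSeries.C (ind (m ∉ E x)) * Z ^ m =
        ∑ m ∈ Finset.range R, if m ∉ E x then Z ^ m else 0 := by
      refine Finset.sum_congr rfl fun m _ => ?_
      by_cases hm : m ∉ E x
      · rw [ind_true hm, if_pos hm, map_one, one_mul]
      · rw [ind_false hm, if_neg hm, map_zero, zero_mul]
    rw [h2, ← Finset.sum_filter]
    rfl
  have hK0 := htel R
  rw [sub_self, mul_zero, add_zero, ← hGap] at hK0
  have hd0 := hdel 0
  rw [ind_false (fun h : 0 ∉ E x => h (h0 x)), map_zero, zero_mul, zero_add, Nat.zero_add] at hd0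
  have hsum : PowerSeries.X * ∑ l ∈ S, PowerSeries.C (wt l) *
      gf S wt (fun z => ind (W E y R' l 1 z)) = Z * F 1 + N := by
    rw [← Finset.add_sum_erase S _ hx]
    simp only [Z, N, F]
    ring
  rw [hsum]
  have hee : (ee (Df (E x) R) (wt x) : PowerSeries ℂ) =
      1 - (1 - Z) * (Gap (Df (E x) R) (wt x) : PowerSeries ℂ) := by
    unfold ee
    simp only [Polynomial.coe_sub, Polynomial.coe_one, Polynomial.coe_mul, Polynomial.coe_C,
      Polynomial.coe_X, Z]
  rw [hee]
  change (1 - (1 - Z) * (Gap (Df (E x) R) (wt x) : PowerSeries ℂ)) * F R = _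
  generalize (Gap (Df (E x) R) (wt x) : PowerSeries ℂ) = Γ at *
  linear_combination (1 - Γ) * hA - hd0 + hK0

theorem run_rec_fin (h0 : ∀ a, 0 ∈ E a) (S : Finset ℕ) (wt : ℕ → ℂ) (y R' x R : ℕ) (hx : x ∈ S)
    (hR' : R' ∈ E y) (hR : R ∈ E x) (hR0 : 0 < R) (hfin : ∀ j ∈ E x, j ≤ R)
    (hxy : x = y → R' = R) :
    ((1 + Gap (Ff (E x) R) (wt x) : Polynomial ℂ) : PowerSeries ℂ) *
      gf S wt (fun z => ind (W E y R' x R z)) =
      PowerSeries.X * ∑ l ∈ S, PowerSeries.C (wt l) * gf S wt (fun z => ind (W E y R' l 1 z)) +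
        1 - PowerSeries.C (ind (x = y)) * ((1 : Polynomial ℂ) : PowerSeries ℂ) := by
  classical
  let F : ℕ → PowerSeries ℂ := fun m => gf S wt (fun z => ind (W E y R' x m z))
  let Z : PowerSeries ℂ := PowerSeries.C (wt x) * PowerSeries.X
  let N : PowerSeries ℂ := PowerSeries.X * ∑ l ∈ S.erase x,
    PowerSeries.C (wt l) * gf S wt (fun z => ind (W E y R' l 1 z))
  have hF : ∀ m, 0 < m → F m = Z * F (m + 1) +
      PowerSeries.C (ind (m ∈ E x)) * (1 - PowerSeries.C (ind (x = y)) + N) := by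
    intro m hm
    have h1 : F m = PowerSeries.C (ind (m + (if x = y then R' else 0) ∈ E x)) + Z * F (m + 1) +
      PowerSeries.C (ind (m ∈ E x)) * N := base_rec h0 S wt y R' x hx hR' m
    by_cases h : x = y
    · have h2 : ¬ (m + (if x = y then R' else 0) ∈ E x) := by
        rw [if_pos h, hxy h]
        intro h3
        have := hfin _ h3
        omega
      rw [ind_false h2, map_zero, zero_add] at h1
      rw [h1, ind_true h, map_one, sub_self, zero_add]
    · rw [if_neg h, Nat.add_zero] at h1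
      rw [h1, ind_false h, map_zero, sub_zero]
      ring
  have hZ : F (R + 1) = 0 := by
    have h1 : F (R + 1) = gf S wt (fun _ => 0) := by
      refine gf_congr S wt _ _ fun z _ => ?_
      refine ind_false fun h => ?_
      obtain ⟨j, hj, hjE⟩ := W_ge y R' x (R + 1) z h
      have := hfin j hjE
      omega
    rw [h1, gf_zero]
  have hA : F R = 1 - PowerSeries.C (ind (x = y)) + N := by
    have h1 := hF R hR0
    rw [hZ, mul_zero, zero_add, ind_true hR, map_one, one_mul] at h1
    exact h1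
  have htel : ∀ M, F 1 = (∑ m ∈ Finset.range M, PowerSeries.C (ind (m + 1 ∈ E x)) * Z ^ m) *
      (1 - PowerSeries.C (ind (x = y)) + N) + Z ^ M * F (M + 1) := by
    intro M
    induction M with
    | zero => simp
    | succ M ih =>
      rw [Finset.sum_range_succ, ih, hF (M + 1) (Nat.succ_pos M)]
      ring
  have hGap : (Gap (Ff (E x) R) (wt x) : PowerSeries ℂ) =
      Z * ∑ m ∈ Finset.range R, PowerSeries.C (ind (m + 1 ∈ E x)) * Z ^ m := by
    rw [coe_gap]
    have h2 : ∑ j ∈ Ff (E x) R, (PowerSeries.C (wt x) * PowerSeries.X) ^ j =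
        ∑ j ∈ Finset.range (R + 1), if 0 < j ∧ j ∈ E x then Z ^ j else 0 := by
      rw [← Finset.sum_filter]
      rfl
    rw [h2, Finset.sum_range_succ', if_neg (fun h => absurd h.1 (lt_irrefl 0)), add_zero,
      Finset.mul_sum]
    refine Finset.sum_congr rfl fun m _ => ?_
    by_cases hm : m + 1 ∈ E x
    · rw [ind_true hm, if_pos ⟨Nat.succ_pos m, hm⟩, map_one]
      ring
    · rw [ind_false hm, if_neg (fun h => hm h.2), map_zero]
      ring
  have h1 := htel R
  rw [hZ, mul_zero, add_zero] at h1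
  have hsum : PowerSeries.X * ∑ l ∈ S, PowerSeries.C (wt l) *
      gf S wt (fun z => ind (W E y R' l 1 z)) = Z * F 1 + N := by
    rw [← Finset.add_sum_erase S _ hx]
    simp only [Z, N, F]
    ring
  rw [hsum, Polynomial.coe_add, Polynomial.coe_one, hGap]
  change (1 + _) * F R = _
  rw [hA, h1]
  ring

/-- the data of a restricted letter -/
theorem letter (h0 : ∀ a, 0 ∈ E a) (x : ℕ) (hS : (E x).Finite ∨ (E x)ᶜ.Finite)
    (hne : ∃ j ∈ E x, 0 < j) (hres : ∃ j, 0 < j ∧ j ∉ E x) :
    ∃ (R : ℕ) (c : ℂ) (e g : Polynomial ℂ), 0 < R ∧ Anc (E x) R ∧ e.eval 1 = 0 ∧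
      g.eval 1 ≠ 0 ∧ ∀ (S : Finset ℕ) (wt : ℕ → ℂ) (y R' : ℕ), x ∈ S → wt x = c → R' ∈ E y →
        (x = y → R' = R) → (e : PowerSeries ℂ) * gf S wt (fun z => ind (W E y R' x R z)) =
      PowerSeries.X * ∑ l ∈ S, PowerSeries.C (wt l) * gf S wt (fun z => ind (W E y R' l 1 z)) +
        1 - PowerSeries.C (ind (x = y)) * (g : PowerSeries ℂ) := by
  classical
  rcases hS with h | h
  · -- finite
    have hfne : h.toFinset.Nonempty := ⟨0, h.mem_toFinset.2 (h0 x)⟩
    let R := h.toFinset.max' hfne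
    have hR : R ∈ E x := h.mem_toFinset.1 (h.toFinset.max'_mem hfne)
    have hfin : ∀ j ∈ E x, j ≤ R := fun j hj => h.toFinset.le_max' j (h.mem_toFinset.2 hj)
    have hR0 : 0 < R := by
      obtain ⟨j, hj, hj0⟩ := hne
      exact lt_of_lt_of_le hj0 (hfin j hj)
    let p : Polynomial ℂ := 1 + ∑ j ∈ Ff (E x) R, Polynomial.X ^ j
    have hRF : R ∈ Ff (E x) R := by
      unfold Ff
      rw [Finset.mem_filter, Finset.mem_range]
      exact ⟨Nat.lt_succ_self R, hR0, hR⟩
    have hcoef : p.coeff R = 1 := by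
      simp only [p]
      rw [Polynomial.coeff_add, Polynomial.finset_sum_coeff, Polynomial.coeff_one,
        if_neg (by omega), Finset.sum_eq_single R]
      · simp
      · intro j _ hj
        rw [Polynomial.coeff_X_pow, if_neg (Ne.symm hj)]
      · intro h
        exact absurd hRF h
    have hdeg : p.degree ≠ 0 := by
      intro hd
      have h1 : p.coeff R = 0 := by
        refine Polynomial.coeff_eq_zero_of_degree_lt ?_
        rw [hd]
        exact_mod_cast hR0
      rw [hcoef] at h1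
      exact one_ne_zero h1
    obtain ⟨c, hc⟩ := IsAlgClosed.exists_root p hdeg
    refine ⟨R, c, 1 + Gap (Ff (E x) R) c, 1, hR0, Or.inr ⟨hR, hfin⟩, ?_, by simp, ?_⟩
    · rw [Polynomial.eval_add, gap_eval, Polynomial.eval_one]
      have h2 : p.eval c = 0 := hc
      simp only [p, Polynomial.eval_add, Polynomial.eval_one, Polynomial.eval_finset_sum,
        Polynomial.eval_pow, Polynomial.eval_X] at h2
      exact h2
    · intro S wt y R' hx hw hR' hxy
      rw [← hw]
      exact run_rec_fin h0 S wt y R' x R hx hR' hR hR0 hfin hxy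
  · -- cofinite
    obtain ⟨B, hB⟩ := h.bddAbove
    have hcof : ∀ j, B + 1 ≤ j → j ∈ E x := by
      intro j hj
      by_contra hj'
      have := hB hj'
      omega
    have hDne : (Df (E x) (B + 1)).Nonempty := by
      obtain ⟨j, hj, hj'⟩ := hres
      refine ⟨j, ?_⟩
      unfold Df
      rw [Finset.mem_filter, Finset.mem_range]
      exact ⟨Nat.lt_succ_of_le (hB hj'), hj'⟩
    obtain ⟨c, hc⟩ := RU.exists_root (Df (E x) (B + 1)) hDne
    refine ⟨B + 1, c, ee (Df (E x) (B + 1)) c, Gap (Df (E x) (B + 1)) c, Nat.succ_pos B,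
      Or.inl hcof, hc, ?_, ?_⟩
    · intro hg
      rw [ee_eval, hg] at hc
      simp at hc
    · intro S wt y R' hx hw hR' hxy
      rw [← hw]
      exact run_rec_cof h0 S wt y R' x (B + 1) hx hR' hcof hxy

end Pool.Agent.Helper37.RV
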