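import Pool.Agent.Helper37.RV.G

/-!
# Anchors are synchronizing; the theorem
-/

set_option autoImplicit false

namespace Pool.Agent.Helper37.RV

open Pool.Agent.Helper31.BD
open Pool.Agent.Helper37.RU (tl tl_self tl_ne tl_append tl_rep tl_last tl_shift gf ind ind_congr
  ind_true ind_false ind_and gf_congr gf_step gf_const_mul gf_zero Gap ee ee_eval gap_eval
  rank_one fac_trans algebra)

variable {S : ℕ → Set ℕ} {n : ℕ}

/-- the set of a letter with `0` added -/
def Ez (S : ℕ → Set ℕ) (a : ℕ) : Set ℕ := insert 0 (S a)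

theorem complete_iff (w : List ℕ) :
    Complete n S w ↔ (∀ a ∈ w, a < n) ∧ ∀ a, pr (Ez S a) a 0 w ∧ tl a 0 w ∈ Ez S a := by
  constructor
  · rintro ⟨h1, h2⟩
    exact ⟨h1, fun a => (run_iff (Ez S a) (Or.inl rfl) a w).1 (fun j hj => Or.inr (h2 a j hj))⟩
  · rintro ⟨h1, h2⟩
    refine ⟨h1, fun a j hj => ?_⟩
    have h3 := (run_iff (Ez S a) (Or.inl rfl) a w).2 (h2 a) j hj
    have h4 := hj.1
    exact Set.mem_of_mem_insert_of_ne h3 (by omega)

theorem rep_mem (x R : ℕ) (hx : x < n) (hR : R ∈ Ez S x) :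
    List.replicate R x ∈ RunLang n S := by
  refine ⟨[], [], ?_⟩
  rw [List.nil_append, List.append_nil, complete_iff]
  refine ⟨fun a ha => by rw [List.eq_of_mem_replicate ha]; exact hx, fun a => ?_⟩
  by_cases hax : a = x
  · subst hax
    have h := pr_rep (Ez S a) a R [] 0
    have h' := tl_rep a R [] 0
    rw [List.append_nil, Nat.zero_add] at h h'
    refine ⟨h.2 trivial, ?_⟩
    rw [h']
    exact hR
  · have h := pr_free (Ez S a) (Or.inl rfl) a (List.replicate R x)
      (fun h => hax (List.eq_of_mem_replicate h))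
    refine ⟨h.1, ?_⟩
    rw [h.2]
    exact Or.inl rfl

theorem tl_end (a x R : ℕ) (U : List ℕ) (hR0 : 0 < R) :
    (a = x → R ≤ tl a 0 (U ++ List.replicate R x)) ∧
      (a ≠ x → tl a 0 (U ++ List.replicate R x) = 0) := by
  constructor
  · intro hax
    subst hax
    have h := tl_rep a R [] (tl a 0 U)
    rw [List.append_nil] at h
    rw [tl_append, h]
    simp only [tl]
    omega
  · intro hax
    rw [tl_append]
    exact (pr_other Set.univ (Set.mem_univ _) a x _ R (Ne.symm hax) hR0).2

theorem split2 (E : Set ℕ) (a : ℕ) (U V : List ℕ) :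
    (pr E a 0 (U ++ V) ∧ tl a 0 (U ++ V) ∈ E) ↔
      (pr E a 0 U ∧ pr E a (tl a 0 U) V ∧ tl a (tl a 0 U) V ∈ E) := by
  rw [pr_append, tl_append, and_assoc]

theorem split3 (E : Set ℕ) (a : ℕ) (U z V : List ℕ) :
    (pr E a 0 (U ++ (z ++ V)) ∧ tl a 0 (U ++ (z ++ V)) ∈ E) ↔
      (pr E a 0 U ∧ pr E a (tl a 0 U) z ∧ pr E a (tl a (tl a 0 U) z) V ∧
        tl a (tl a (tl a 0 U) z) V ∈ E) := by
  rw [split2, pr_append, tl_append, and_assoc]

theorem sync (P Q z : List ℕ) (x y R R' : ℕ) (hR0 : 0 < R) (hR0' : 0 < R')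
    (hA : Anc (Ez S x) R) (hA' : Anc (Ez S y) R')
    (hP : P ++ List.replicate R x ∈ RunLang n S)
    (hQ : List.replicate R' y ++ Q ∈ RunLang n S) (hz : ∀ a ∈ z, a < n) :
    P ++ List.replicate R x ++ z ++ (List.replicate R' y ++ Q) ∈ RunLang n S ↔
      W (Ez S) y R' x R z := by
  constructor
  · rintro ⟨u, v, hc⟩
    rw [complete_iff] at hc
    have hw : u ++ (P ++ List.replicate R x ++ z ++ (List.replicate R' y ++ Q)) ++ v =
        ((u ++ P) ++ List.replicate R x) ++ (z ++ (List.replicate R' y ++ (Q ++ v))) := by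
      simp only [List.append_assoc]
    rw [hw] at hc
    intro a
    have h1 := (split3 _ _ _ _ _).1 (hc.2 a)
    have he := tl_end a x R (u ++ P) hR0
    generalize tl a 0 ((u ++ P) ++ List.replicate R x) = m at h1 he
    obtain ⟨_, h2, h3, h4⟩ := h1
    -- the counter after `z`
    have h5 : tl a m z + (if a = y then R' else 0) ∈ Ez S a := by
      by_cases hay : a = y
      · subst hay
        rw [if_pos rfl]
        rw [pr_rep] at h3
        rw [tl_rep] at h4
        exact anc_mem _ R' _ hA' (Nat.le_add_left _ _)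
          (run_ge _ a 0 (Q ++ v) _ h3 (by rwa [Nat.add_zero]))
      · rw [if_neg hay, Nat.add_zero]
        rw [pr_append] at h3
        exact (pr_other (Ez S a) (Or.inl rfl) a y _ R' (Ne.symm hay) hR0').1.1 h3.1
    by_cases hax : a = x
    · subst hax
      rw [if_pos rfl]
      exact big _ a R _ hA z m R (he.1 rfl) le_rfl ⟨R, le_rfl, anc_self _ _ hA⟩ ⟨h2, h5⟩
    · rw [if_neg hax]
      rw [he.2 hax] at h2 h5
      exact ⟨h2, h5⟩
  · intro hW
    obtain ⟨u, v, hc⟩ := hP
    obtain ⟨u', v', hc'⟩ := hQ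
    rw [complete_iff] at hc hc'
    refine ⟨u, v', ?_⟩
    rw [complete_iff]
    refine ⟨?_, fun a => ?_⟩
    · intro a ha
      have h1 := hc.1 a
      have h2 := hc'.1 a
      have h3 := hz a
      simp only [List.mem_append] at ha h1 h2
      tauto
    · have hw : u ++ (P ++ List.replicate R x ++ z ++ (List.replicate R' y ++ Q)) ++ v' =
          ((u ++ P) ++ List.replicate R x) ++ (z ++ (List.replicate R' y ++ (Q ++ v'))) := by
        simp only [List.append_assoc]
      rw [hw]
      have h1 := hc.2 a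
      have hw1 : u ++ (P ++ List.replicate R x) ++ v =
          ((u ++ P) ++ List.replicate R x) ++ v := by
        simp only [List.append_assoc]
      rw [hw1, split2] at h1
      have h2 := hc'.2 a
      have hw2 : u' ++ (List.replicate R' y ++ Q) ++ v' =
          u' ++ (List.replicate R' y ++ (Q ++ v')) := by
        simp only [List.append_assoc]
      rw [hw2, split2] at h2
      rw [split3]
      have he := tl_end a x R (u ++ P) hR0
      generalize (u ++ P) ++ List.replicate R x = U at h1 he ⊢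
      generalize tl a 0 U = m at h1 he ⊢
      obtain ⟨h3, h4, h5⟩ := h1
      obtain ⟨_, h6, h7⟩ := h2
      generalize tl a 0 u' = t0 at h6 h7
      have hWa := hW a
      -- the middle part
      have h8 : pr (Ez S a) a m z ∧ tl a m z + (if a = y then R' else 0) ∈ Ez S a := by
        by_cases hax : a = x
        · subst hax
          rw [if_pos rfl] at hWa
          exact big _ a R _ hA z R m le_rfl (he.1 rfl)
            (run_ge _ a 0 v m h4 (by rwa [Nat.add_zero])) hWa
        · rw [if_neg hax] at hWa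
          rw [he.2 hax]
          exact hWa
      obtain ⟨h8, h9⟩ := h8
      generalize tl a m z = t at h9 ⊢
      by_cases hay : a = y
      · subst hay
        rw [if_pos rfl] at h9
        rw [pr_rep] at h6
        rw [tl_rep] at h7
        rw [pr_rep, tl_rep]
        have h10 := big (Ez S a) a R' 0 hA' (Q ++ v') (t0 + R') (t + R') (Nat.le_add_left _ _)
          (Nat.le_add_left _ _) ⟨t + R', le_rfl, h9⟩ ⟨h6, by rwa [Nat.add_zero]⟩
        rw [Nat.add_zero] at h10
        exact ⟨h3, h8, h10.1, h10.2⟩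
      · rw [if_neg hay, Nat.add_zero] at h9
        rw [pr_append] at h6
        rw [tl_append] at h7
        rw [pr_append, tl_append]
        have h10 := pr_other (Ez S a) (Or.inl rfl) a y t R' (Ne.symm hay) hR0'
        have h11 := pr_other (Ez S a) (Or.inl rfl) a y t0 R' (Ne.symm hay) hR0'
        rw [h11.2] at h6 h7
        rw [h10.2]
        exact ⟨h3, h8, ⟨h10.1.2 h9, h6.2⟩, h7⟩

theorem no_code (n : ℕ) (S : ℕ → Set ℕ) (a b c : ℕ) (hab : a ≠ b)
    (hac : a ≠ c) (hbc : b ≠ c) (han : a < n) (hbn : b < n) (hcn : c < n)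
    (hS : ∀ a < n, (S a).Finite ∨ (S a)ᶜ.Finite) (hne : ∀ a < n, ∃ j ∈ S a, 0 < j)
    (hDa : ∃ j, 0 < j ∧ j ∉ S a) (hDb : ∃ j, 0 < j ∧ j ∉ S b) (hDc : ∃ j, 0 < j ∧ j ∉ S c)
    (C : Finset (List ℕ)) (hC : UD C) (hL : RunLang n S = Fac C) : False := by
  classical
  have h0 : ∀ l, 0 ∈ Ez S l := fun l => Or.inl rfl
  have hlet : ∀ x < n, (∃ j, 0 < j ∧ j ∉ S x) → ((Ez S x).Finite ∨ (Ez S x)ᶜ.Finite) ∧
      (∃ j ∈ Ez S x, 0 < j) ∧ (∃ j, 0 < j ∧ j ∉ Ez S x) := by
    intro x hx hD
    refine ⟨?_, ?_, ?_⟩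
    · rcases hS x hx with h | h
      · exact Or.inl (h.insert 0)
      · exact Or.inr (h.subset (Set.compl_subset_compl.2 (Set.subset_insert 0 (S x))))
    · obtain ⟨j, hj, hj0⟩ := hne x hx
      exact ⟨j, Or.inr hj, hj0⟩
    · obtain ⟨j, hj, hj'⟩ := hD
      refine ⟨j, hj, fun h => ?_⟩
      exact hj' (Set.mem_of_mem_insert_of_ne h (by omega))
  have la := hlet a han hDa
  have lb := hlet b hbn hDb
  have lc := hlet c hcn hDc
  obtain ⟨Ra, za, ea, Ga, hRa0, hAa, hza, hga0, reca⟩ := letter h0 a la.1 la.2.1 la.2.2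
  obtain ⟨Rb, zb, eb, Gb, hRb0, hAb, hzb, hgb0, recb⟩ := letter h0 b lb.1 lb.2.1 lb.2.2
  obtain ⟨Rc, zc, ec, Gc, hRc0, hAc, hzc, hgc0, recc⟩ := letter h0 c lc.1 lc.2.1 lc.2.2
  let T : Finset ℕ := {a, b, c}
  let wt : ℕ → ℂ := fun l => if l = a then za else if l = b then zb else if l = c then zc else 0
  have wa : wt a = za := by simp [wt]
  have wb : wt b = zb := by simp [wt, hab.symm]
  have wc : wt c = zc := by simp [wt, hac.symm, hbc.symm]
  have hwt : ∀ l, l ∉ T → wt l = 0 := by
    intro l hl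
    simp only [T, Finset.mem_insert, Finset.mem_singleton, not_or] at hl
    simp [wt, hl.1, hl.2.1, hl.2.2]
  have hTn : ∀ l ∈ T, l < n := by
    intro l hl
    simp only [T, Finset.mem_insert, Finset.mem_singleton] at hl
    rcases hl with h | h | h
    · rw [h]; exact han
    · rw [h]; exact hbn
    · rw [h]; exact hcn
  have hrep : ∀ x R, x < n → Anc (Ez S x) R → List.replicate R x ∈ Fac C := by
    intro x R hx hA
    rw [← hL]
    exact rep_mem x R hx (anc_self _ _ hA)
  have hCne : C.Nonempty := by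
    obtain ⟨u, v, l, hl, he⟩ := hrep a Ra han hAa
    cases l with
    | nil =>
      have := congrArg List.length he
      simp at this
      omega
    | cons e l => exact ⟨e, hl e (by simp)⟩
  obtain ⟨w, w', q, t, u, P, hw, hw', hq, hqq⟩ := rank_one C hC hCne T wt hwt
  -- contexts
  have hleft : ∀ x R, x < n → Anc (Ez S x) R →
      ∃ g, w ++ g ++ List.replicate R x ∈ RunLang n S := by
    intro x R hx hA
    rw [hL]
    exact fac_trans C _ _ hw (hrep x R hx hA)
  have hright : ∀ y R, y < n → Anc (Ez S y) R →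
      ∃ g, List.replicate R y ++ g ++ w' ∈ RunLang n S := by
    intro y R hy hA
    rw [hL]
    exact fac_trans C _ _ (hrep y R hy hA) hw'
  have hctx : ∀ x y R R', 0 < R → 0 < R' → Anc (Ez S x) R → Anc (Ez S y) R' →
      ∀ g g', w ++ g ++ List.replicate R x ∈ RunLang n S →
      List.replicate R' y ++ g' ++ w' ∈ RunLang n S →
      gf T wt (fun z => ind (w ++ (g ++ List.replicate R x) ++ z ++
        (List.replicate R' y ++ g') ++ w' ∈ Fac C)) =
      gf T wt (fun z => ind (W (Ez S) y R' x R z)) := by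
    intro x y R R' hR0 hR0' hA hA' g g' hg hg'
    refine gf_congr T wt _ _ fun z hz => ind_congr ?_
    rw [← hL]
    have h1 := sync (w ++ g) (g' ++ w') z x y R R' hR0 hR0' hA hA' hg (by
      rw [← List.append_assoc]; exact hg') (fun l hl => hTn l (hz l hl))
    rw [← h1]
    simp only [List.append_assoc]
  obtain ⟨ga, hga⟩ := hleft a Ra han hAa
  obtain ⟨gb, hgb⟩ := hleft b Rb hbn hAb
  obtain ⟨gc, hgc⟩ := hleft c Rc hcn hAc
  obtain ⟨ga', hga'⟩ := hright a Ra han hAa
  obtain ⟨gb', hgb'⟩ := hright b Rb hbn hAb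
  have haT : a ∈ T := by simp [T]
  have hbT : b ∈ T := by simp [T]
  have hcT : c ∈ T := by simp [T]
  let L : Fin 3 → List ℕ := ![ga ++ List.replicate Ra a, gb ++ List.replicate Rb b,
    gc ++ List.replicate Rc c]
  let L' : Fin 2 → List ℕ := ![List.replicate Ra a ++ ga', List.replicate Rb b ++ gb']
  have hfin := algebra q hq ea eb ec Ga Gb
    (fun i j => gf T wt (fun z => ind (W (Ez S) (![a, b] j) (![Ra, Rb] j) (![a, b, c] i)
      (![Ra, Rb, Rc] i) z)))
    (fun j => PowerSeries.X * ∑ l ∈ T, PowerSeries.C (wt l) *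
      gf T wt (fun z => ind (W (Ez S) (![a, b] j) (![Ra, Rb] j) l 1 z)))
    (fun i => t (L i)) (fun j => u (L' j)) (fun i j => P (L i) (L' j))
    (by
      intro i j
      have h1 := hqq (L i) (L' j)
      rw [← h1]
      congr 1
      symm
      fin_cases i <;> fin_cases j
      · exact hctx a a Ra Ra hRa0 hRa0 hAa hAa ga ga' hga hga'
      · exact hctx a b Ra Rb hRa0 hRb0 hAa hAb ga gb' hga hgb'
      · exact hctx b a Rb Ra hRb0 hRa0 hAb hAa gb ga' hgb hga'
      · exact hctx b b Rb Rb hRb0 hRb0 hAb hAb gb gb' hgb hgb'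
      · exact hctx c a Rc Ra hRc0 hRa0 hAc hAa gc ga' hgc hga'
      · exact hctx c b Rc Rb hRc0 hRb0 hAc hAb gc gb' hgc hgb')
    (by
      have h1 := reca T wt a Ra haT wa (anc_self _ _ hAa) (fun _ => rfl)
      rw [ind_true rfl, map_one, one_mul] at h1
      exact h1)
    (by
      have h1 := reca T wt b Rb haT wa (anc_self _ _ hAb) (fun h => absurd h hab)
      rw [ind_false hab, map_zero, zero_mul, sub_zero] at h1
      exact h1)
    (by
      have h1 := recb T wt a Ra hbT wb (anc_self _ _ hAa) (fun h => absurd h hab.symm)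
      rw [ind_false hab.symm, map_zero, zero_mul, sub_zero] at h1
      exact h1)
    (by
      have h1 := recb T wt b Rb hbT wb (anc_self _ _ hAb) (fun _ => rfl)
      rw [ind_true rfl, map_one, one_mul] at h1
      exact h1)
    (by
      have h1 := recc T wt a Ra hcT wc (anc_self _ _ hAa) (fun h => absurd h hac.symm)
      rw [ind_false hac.symm, map_zero, zero_mul, sub_zero] at h1
      exact h1)
    (by
      have h1 := recc T wt b Rb hcT wc (anc_self _ _ hAb) (fun h => absurd h hbc.symm)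
      rw [ind_false hbc.symm, map_zero, zero_mul, sub_zero] at h1
      exact h1)
    hza hzb hzc
  rcases mul_eq_zero.1 hfin with h | h
  · exact hga0 h
  · exact hgb0 h

/-- **Theorem.** A language given by run length constraints is the set of factors of a finite code
if and only if at most two letters are constrained. -/
theorem main (n : ℕ) (hn : 2 ≤ n) (S : ℕ → Set ℕ)
    (hS : ∀ a < n, (S a).Finite ∨ (S a)ᶜ.Finite) (hne : ∀ a < n, ∃ j ∈ S a, 0 < j) :
    (∃ C : Finset (List ℕ), UD C ∧ RunLang n S = Fac C) ↔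
      {a | a < n ∧ ∃ j, 0 < j ∧ j ∉ S a}.ncard ≤ 2 := by
  classical
  constructor
  · rintro ⟨C, hC, hL⟩
    by_contra hcard
    push Not at hcard
    have hfin : {a | a < n ∧ ∃ j, 0 < j ∧ j ∉ S a}.Finite :=
      (Set.finite_lt_nat n).subset (fun a ha => ha.1)
    rw [Set.ncard_eq_toFinset_card _ hfin] at hcard
    obtain ⟨a, b, c, ha, hb, hc, hab, hac, hbc⟩ := Finset.two_lt_card_iff.1 hcard
    have ha' := hfin.mem_toFinset.1 ha
    have hb' := hfin.mem_toFinset.1 hb
    have hc' := hfin.mem_toFinset.1 hc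
    exact no_code n S a b c hab hac hbc ha'.1 hb'.1 hc'.1 hS hne ha'.2 hb'.2 hc'.2 C hC hL
  · exact sufficient n hn S hS hne

end Pool.Agent.Helper37.RV
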